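import Mathlib
import Pool.Agent.R434.RittC

/-!
Symmetric decreasing majorants of finitely supported functions on the integers (helper51).
-/

set_option autoImplicit false

namespace Pool.Agent.T6.H51.RM

open Finset Pool.Agent.R434.Ritt

/-- the total mass -/
noncomputable def ms (f : L) : ℝ := ∑' x : ℤ, f.coeff x

lemma ms_add (f g : L) : ms (f + g) = ms f + ms g := by
  unfold ms
  rw [← (summ f).tsum_add (summ g)]
  exact tsum_congr fun x => by rw [AddMonoidAlgebra.coeff_add, Finsupp.add_apply]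

lemma ms_smul (c : ℝ) (f : L) : ms (c • f) = c * ms f := by
  unfold ms
  rw [← tsum_mul_left]
  exact tsum_congr fun x => by rw [AddMonoidAlgebra.coeff_smul_apply, smul_eq_mul]

lemma ms_zero : ms 0 = 0 := by
  unfold ms
  simp

lemma ms_mul (f g : L) : ms (f * g) = ms f * ms g := by
  have h : ∀ p : L, E 0 p = ((ms p : ℝ) : ℂ) := fun p => E_zero p
  have h1 := h (f * g)
  rw [map_mul, h, h] at h1
  exact_mod_cast h1.symm

lemma coeff_mul (f g : L) (x : ℤ) :
    (f * g).coeff x = ∑ y ∈ f.coeff.support, f.coeff y * g.coeff (x - y) := by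
  have h3 : f * g = ∑ i ∈ f.coeff.support, f.coeff i • (T i * g) := by
    have h4 : f * g = (∑ i ∈ f.coeff.support, f.coeff i • T i) * g := by
      rw [← eq_sum f]
    rw [h4, Finset.sum_mul]
    exact Finset.sum_congr rfl fun i _ => smul_mul_assoc _ _ _
  rw [h3, AddMonoidAlgebra.coeff_sum, Finsupp.finsetSum_apply]
  refine Finset.sum_congr rfl fun i _ => ?_
  rw [AddMonoidAlgebra.coeff_smul_apply, T_mul_coeff, smul_eq_mul]

/-- the coefficients of a product, with any finite set containing the support -/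
lemma coeff_mul_of (f g : L) (x : ℤ) (s : Finset ℤ) (hs : f.coeff.support ⊆ s) :
    (f * g).coeff x = ∑ y ∈ s, f.coeff y * g.coeff (x - y) := by
  rw [coeff_mul]
  refine Finset.sum_subset hs fun y _ hy => ?_
  have : f.coeff y = 0 := by simpa using hy
  rw [this, zero_mul]

/-- `f` has a symmetric decreasing majorant of mass at most `c` -/
def HM (f : L) (c : ℝ) : Prop := ∃ G : L, Uni G ∧ (∀ x, |f.coeff x| ≤ G.coeff x) ∧ ms G ≤ c

lemma HM.mono {f : L} {c d : ℝ} (h : HM f c) (hcd : c ≤ d) : HM f d := by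
  obtain ⟨G, h1, h2, h3⟩ := h
  exact ⟨G, h1, h2, h3.trans hcd⟩

lemma HM_zero : HM 0 0 := by
  refine ⟨0, fun x y _ => le_rfl, fun x => ?_, ms_zero.le⟩
  simp

lemma Uni_add {f g : L} (hf : Uni f) (hg : Uni g) : Uni (f + g) := by
  intro x y h
  rw [AddMonoidAlgebra.coeff_add, Finsupp.add_apply, Finsupp.add_apply]
  exact add_le_add (hf x y h) (hg x y h)

lemma Uni_smul {f : L} (hf : Uni f) {c : ℝ} (hc : 0 ≤ c) : Uni (c • f) := by
  intro x y h
  rw [AddMonoidAlgebra.coeff_smul_apply, AddMonoidAlgebra.coeff_smul_apply, smul_eq_mul,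
    smul_eq_mul]
  exact mul_le_mul_of_nonneg_left (hf x y h) hc

lemma HM.add {f g : L} {c d : ℝ} (hf : HM f c) (hg : HM g d) : HM (f + g) (c + d) := by
  obtain ⟨F, h1, h2, h3⟩ := hf
  obtain ⟨G, h4, h5, h6⟩ := hg
  refine ⟨F + G, Uni_add h1 h4, fun x => ?_, ?_⟩
  · rw [AddMonoidAlgebra.coeff_add, Finsupp.add_apply, AddMonoidAlgebra.coeff_add,
      Finsupp.add_apply]
    exact (abs_add_le _ _).trans (add_le_add (h2 x) (h5 x))
  · rw [ms_add]
    exact add_le_add h3 h6

lemma HM.smul {f : L} {c : ℝ} (hf : HM f c) (a : ℝ) : HM (a • f) (|a| * c) := by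
  obtain ⟨F, h1, h2, h3⟩ := hf
  refine ⟨|a| • F, Uni_smul h1 (abs_nonneg a), fun x => ?_, ?_⟩
  · rw [AddMonoidAlgebra.coeff_smul_apply, AddMonoidAlgebra.coeff_smul_apply, smul_eq_mul,
      smul_eq_mul, abs_mul]
    exact mul_le_mul_of_nonneg_left (h2 x) (abs_nonneg a)
  · rw [ms_smul]
    exact mul_le_mul_of_nonneg_left h3 (abs_nonneg a)

lemma HM.neg {f : L} {c : ℝ} (hf : HM f c) : HM (-f) c := by
  have h := hf.smul (-1)
  rw [abs_neg, abs_one, one_mul, neg_one_smul] at h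
  exact h

lemma HM.sub {f g : L} {c d : ℝ} (hf : HM f c) (hg : HM g d) : HM (f - g) (c + d) := by
  rw [sub_eq_add_neg]
  exact hf.add hg.neg

lemma HM_sum {ι : Type*} (s : Finset ι) (f : ι → L) (c : ι → ℝ) (h : ∀ i ∈ s, HM (f i) (c i)) :
    HM (∑ i ∈ s, f i) (∑ i ∈ s, c i) := by
  classical
  induction s using Finset.induction_on with
  | empty =>
    simp only [Finset.sum_empty]
    exact HM_zero
  | insert a s ha ih =>
    rw [Finset.sum_insert ha, Finset.sum_insert ha]
    exact (h a (Finset.mem_insert_self a s)).add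
      (ih fun i hi => h i (Finset.mem_insert_of_mem hi))

lemma HM.mul {f g : L} {c d : ℝ} (hf : HM f c) (hg : HM g d) : HM (f * g) (c * d) := by
  obtain ⟨F, h1, h2, h3⟩ := hf
  obtain ⟨G, h4, h5, h6⟩ := hg
  have hms : ∀ H : L, Uni H → 0 ≤ ms H := fun H hH => tsum_nonneg fun x => hH.nonneg x
  refine ⟨F * G, h1.mul h4, fun x => ?_, ?_⟩
  · have hs : f.coeff.support ⊆ f.coeff.support ∪ F.coeff.support := Finset.subset_union_left
    have hs' : F.coeff.support ⊆ f.coeff.support ∪ F.coeff.support := Finset.subset_union_right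
    rw [coeff_mul_of f g x _ hs, coeff_mul_of F G x _ hs']
    refine (Finset.abs_sum_le_sum_abs _ _).trans (Finset.sum_le_sum fun y _ => ?_)
    rw [abs_mul]
    exact mul_le_mul (h2 y) (h5 _) (abs_nonneg _) (h1.nonneg y)
  · rw [ms_mul]
    exact mul_le_mul h3 h6 (hms G h4) ((hms F h1).trans h3)

lemma HM_uni {f : L} (hf : Uni f) : HM f (ms f) :=
  ⟨f, hf, fun x => by rw [abs_of_nonneg (hf.nonneg x)], le_rfl⟩

lemma HM.nonneg {f : L} {c : ℝ} (h : HM f c) : 0 ≤ c := by
  obtain ⟨F, h1, _, h3⟩ := h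
  exact (tsum_nonneg fun x => h1.nonneg x).trans h3

lemma ms_U (k : ℕ) : ms (U k) = 1 := by
  have h : E 0 (U k) = ((ms (U k) : ℝ) : ℂ) := E_zero (U k)
  rw [E_U] at h
  have : S k 0 = 2 * k + 1 := by
    unfold S
    simp
  rw [this, one_div, inv_mul_cancel₀ (by positivity)] at h
  exact_mod_cast h.symm

lemma ms_one : ms 1 = 1 := by
  have h : E 0 1 = ((ms 1 : ℝ) : ℂ) := E_zero 1
  rw [map_one] at h
  exact_mod_cast h.symm

lemma Uni_U (k : ℕ) : Uni (U k) := by
  have := Uni_U_mul Uni_one k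
  rwa [mul_one] at this

/-- a bounded function with small support -/
lemma HM_bdd {f : L} {B : ℝ} {R : ℕ} (hB : 0 ≤ B) (h1 : ∀ x, |f.coeff x| ≤ B)
    (h2 : ∀ x, (R : ℤ) < |x| → f.coeff x = 0) : HM f ((2 * R + 1) * B) := by
  refine ⟨((2 * R + 1) * B : ℝ) • U R, Uni_smul (Uni_U R) (by positivity), fun x => ?_, ?_⟩
  · rw [AddMonoidAlgebra.coeff_smul_apply, smul_eq_mul, U_coeff]
    split_ifs with h
    · refine (h1 x).trans (le_of_eq ?_)
      have : (2 * (R : ℝ) + 1) ≠ 0 := by positivity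
      field_simp
    · rw [h2 x (by omega), abs_zero, mul_zero]
  · rw [ms_smul, ms_U, mul_one]

/-- the support is in `[-R, R]` -/
def SB (f : L) (R : ℕ) : Prop := ∀ x, (R : ℤ) < |x| → f.coeff x = 0

lemma SB.mul {f g : L} {R R' : ℕ} (hf : SB f R) (hg : SB g R') : SB (f * g) (R + R') := by
  intro x hx
  rw [coeff_mul]
  refine Finset.sum_eq_zero fun y _ => ?_
  by_cases h : (R : ℤ) < |y|
  · rw [hf y h, zero_mul]
  · rw [hg (x - y), mul_zero]
    push_cast at hx
    have := abs_sub_abs_le_abs_sub x y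
    omega

lemma SB_U (k : ℕ) : SB (U k) k := by
  intro x hx
  rw [U_coeff, if_neg (by omega)]

lemma SB_one (k : ℕ) : SB 1 k := by
  intro x hx
  rw [← T_zero, T_coeff, if_neg]
  rintro rfl
  rw [abs_zero] at hx
  omega

lemma SB.sub {f g : L} {R : ℕ} (hf : SB f R) (hg : SB g R) : SB (f - g) R := by
  intro x hx
  rw [AddMonoidAlgebra.coeff_sub, Finsupp.sub_apply, hf x hx, hg x hx, sub_zero]

lemma sup_mul_U (g : L) (c : ℕ) (x : ℤ) : |(g * U c).coeff x| ≤ N1 g / (2 * c + 1) := by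
  rw [coeff_mul, N1_eq_sum, Finset.sum_div]
  refine (Finset.abs_sum_le_sum_abs _ _).trans (Finset.sum_le_sum fun y _ => ?_)
  rw [abs_mul, div_eq_mul_one_div]
  refine mul_le_mul_of_nonneg_left ?_ (abs_nonneg _)
  rw [U_coeff]
  split_ifs
  · rw [abs_of_nonneg (by positivity)]
  · rw [abs_zero]
    positivity

end Pool.Agent.T6.H51.RM
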