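import Mathlib
import Pool.Agent.T6.H51.RM.A

/-!
The smoothing inequality with a symmetric decreasing majorant (helper51).
-/

set_option autoImplicit false

namespace Pool.Agent.T6.H51.RM

open Finset Pool.Agent.R434.Ritt

/-- `1 - U k` as an average of second differences -/
lemma second_diff (p q : L) (k : ℕ) : (1 - U k) * (p * q) = (1 / (2 * (2 * k + 1)) : ℝ) •
      ∑ n ∈ range (2 * k + 1), ((1 - T ((n : ℤ) - k)) * p) * ((1 - T ((k : ℤ) - n)) * q) := by
  have h1 : ∑ n ∈ range (2 * k + 1), T ((k : ℤ) - n) = ∑ n ∈ range (2 * k + 1), T ((n : ℤ) - k) := by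
    rw [← Finset.sum_range_reflect]
    refine Finset.sum_congr rfl fun n hn => ?_
    congr 1
    have hn' := Finset.mem_range.1 hn
    omega
  have h2 : ∀ n : ℕ, (1 - T ((n : ℤ) - k)) * p * ((1 - T ((k : ℤ) - n)) * q) =
      (2 - T ((n : ℤ) - k) - T ((k : ℤ) - n)) * (p * q) := by
    intro n
    have h3 : T ((n : ℤ) - k) * T ((k : ℤ) - n) = 1 := by
      rw [T_add, ← T_zero]
      congr 1
      ring
    calc (1 - T ((n : ℤ) - k)) * p * ((1 - T ((k : ℤ) - n)) * q)
        = (1 - T ((n : ℤ) - k) - T ((k : ℤ) - n) + T ((n : ℤ) - k) * T ((k : ℤ) - n)) *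
          (p * q) := by ring
      _ = _ := by rw [h3]; ring
  simp only [h2]
  rw [← Finset.sum_mul, Finset.sum_sub_distrib, Finset.sum_sub_distrib, h1, Finset.sum_const,
    Finset.card_range, ← smul_mul_assoc]
  congr 1
  unfold U
  rw [smul_sub, smul_sub, sub_sub, ← two_smul ℝ ((1 / (2 * (2 * k + 1)) : ℝ) •
    ∑ n ∈ range (2 * k + 1), T ((n : ℤ) - k)), smul_smul]
  congr 1
  · rw [← Nat.cast_smul_eq_nsmul ℝ, smul_smul]
    have h4 : (2 : L) = (2 : ℝ) • 1 := by
      rw [two_smul]
      norm_num
    rw [h4, smul_smul]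
    have h5 : (1 / (2 * (2 * (k : ℝ) + 1)) * ((2 * k + 1 : ℕ) : ℝ) * 2) = 1 := by
      push_cast
      field_simp
    rw [h5, one_smul]
  · congr 1
    field_simp

lemma N1_smul_le (a : ℝ) (ha : 0 ≤ a) (f : L) : N1 (a • f) = a * N1 f := by
  rw [N1_smul, abs_of_nonneg ha]

/-- the mass of `[-k, k]` for the uniform measure -/
lemma F_U_of_le {a k : ℕ} (h : a ≤ k) : F (U a) k = 1 := by
  rw [F_eq_tsum, ← ms_U a, ms]
  refine tsum_congr fun x => ?_
  split_ifs with hx
  · rfl
  · rw [U_coeff, if_neg (by omega)]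

/-- three uniform measures, the third one being the largest -/
lemma triple_aux (k a b c : ℕ) (hac : a ≤ c) (hbc : b ≤ c) :
    HM ((1 - U k) * (U a * U b * U c)) (8 * (F (U a) k * F (U b) k)) := by
  have hFa := F_nonneg (Uni_U a) k
  have hFb := F_nonneg (Uni_U b) k
  rcases le_or_gt c k with hck | hck
  · rw [F_U_of_le (hac.trans hck), F_U_of_le (hbc.trans hck)]
    have h1 : Uni (U a * U b * U c) := ((Uni_U a).mul (Uni_U b)).mul (Uni_U c)
    have h2 : ms (U a * U b * U c) = 1 := by
      rw [ms_mul, ms_mul, ms_U, ms_U, ms_U]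
      norm_num
    have h3 : ms (U k * (U a * U b * U c)) = 1 := by
      rw [ms_mul, h2, ms_U]
      norm_num
    have h4 := (HM_uni h1).sub (HM_uni ((Uni_U k).mul h1))
    rw [h2, h3] at h4
    rw [sub_mul, one_mul]
    exact h4.mono (by norm_num)
  · have hsup : ∀ x, |((1 - U k) * (U a * U b * U c)).coeff x| ≤
        2 * (F (U a) k * F (U b) k) / (2 * c + 1) := by
      intro x
      rw [← mul_assoc]
      refine (sup_mul_U _ c x).trans ?_
      refine div_le_div_of_nonneg_right ?_ (by positivity)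
      rw [second_diff, N1_smul_le _ (by positivity)]
      have h6 : N1 (∑ n ∈ range (2 * k + 1), ((1 - T ((n : ℤ) - k)) * U a) *
          ((1 - T ((k : ℤ) - n)) * U b)) ≤
          ∑ n ∈ range (2 * k + 1), (2 * F (U a) k) * (2 * F (U b) k) := by
        refine (N1_sum _ _).trans (Finset.sum_le_sum fun n hn => ?_)
        have hn' := Finset.mem_range.1 hn
        refine (N1_mul _ _).trans (mul_le_mul (N1_diff (Uni_U a) k _ ?_)
          (N1_diff (Uni_U b) k _ ?_) (N1_nonneg _) ?_)
        · rw [abs_le]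
          constructor <;> omega
        · rw [abs_le]
          constructor <;> omega
        · linarith
      rw [Finset.sum_const, Finset.card_range, nsmul_eq_mul] at h6
      refine (mul_le_mul_of_nonneg_left h6 (by positivity)).trans (le_of_eq ?_)
      push_cast
      field_simp
    have hsb : SB ((1 - U k) * (U a * U b * U c)) (k + (a + b + c)) :=
      ((SB_one k).sub (SB_U k)).mul (((SB_U a).mul (SB_U b)).mul (SB_U c))
    have h7 := HM_bdd (f := (1 - U k) * (U a * U b * U c)) (R := 4 * c) (by positivity) hsup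
      (fun x hx => hsb x (by push_cast at hx ⊢; omega))
    refine h7.mono ?_
    rw [mul_div_assoc', div_le_iff₀ (by positivity)]
    push_cast
    have : 0 ≤ F (U a) k * F (U b) k := mul_nonneg hFa hFb
    have hc0 : (0 : ℝ) ≤ c := Nat.cast_nonneg c
    nlinarith

lemma triple (k a b c : ℕ) : HM ((1 - U k) * (U a * U b * U c))
    (8 * (F (U a) k * F (U b) k + F (U a) k * F (U c) k + F (U b) k * F (U c) k)) := by
  have hFa := F_nonneg (Uni_U a) k
  have hFb := F_nonneg (Uni_U b) k
  have hFc := F_nonneg (Uni_U c) k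
  have hab := mul_nonneg hFa hFb
  have hac := mul_nonneg hFa hFc
  have hbc := mul_nonneg hFb hFc
  rcases le_total a b with h1 | h1
  · rcases le_total b c with h2 | h2
    · exact (triple_aux k a b c (h1.trans h2) h2).mono (by linarith)
    · have h3 := triple_aux k a c b h1 h2
      have e : U a * U c * U b = U a * U b * U c := by ring
      rw [e] at h3
      exact h3.mono (by linarith)
  · rcases le_total a c with h2 | h2
    · exact (triple_aux k a b c h2 (h1.trans h2)).mono (by linarith)
    · have h3 := triple_aux k b c a h1 h2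
      have e : U b * U c * U a = U a * U b * U c := by ring
      rw [e] at h3
      exact h3.mono (by linarith)

lemma F_add (f g : L) (k : ℕ) : F (f + g) k = F f k + F g k := by
  unfold F
  rw [← Finset.sum_add_distrib]
  exact Finset.sum_congr rfl fun n _ => by rw [AddMonoidAlgebra.coeff_add, Finsupp.add_apply]

lemma F_smul (c : ℝ) (f : L) (k : ℕ) : F (c • f) k = c * F f k := by
  unfold F
  rw [Finset.mul_sum]
  exact Finset.sum_congr rfl fun n _ => by
    rw [AddMonoidAlgebra.coeff_smul_apply, smul_eq_mul]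

lemma F_zero (k : ℕ) : F 0 k = 0 := by
  unfold F
  simp

lemma F_sum {ι : Type*} (s : Finset ι) (f : ι → L) (k : ℕ) :
    F (∑ i ∈ s, f i) k = ∑ i ∈ s, F (f i) k := by
  classical
  induction s using Finset.induction_on with
  | empty => simp only [Finset.sum_empty, F_zero]
  | insert a s ha ih => rw [Finset.sum_insert ha, Finset.sum_insert ha, F_add, ih]

lemma ms_sum {ι : Type*} (s : Finset ι) (f : ι → L) : ms (∑ i ∈ s, f i) = ∑ i ∈ s, ms (f i) := by
  classical
  induction s using Finset.induction_on with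
  | empty => simp only [Finset.sum_empty, ms_zero]
  | insert a s ha ih => rw [Finset.sum_insert ha, Finset.sum_insert ha, ms_add, ih]

/-- **The smoothing inequality with a majorant.** -/
theorem key3 {f : L} (hf : Uni f) (h1 : ms f = 1) (k : ℕ) :
    HM ((1 - U k) * (f * f * f)) (24 * F f k ^ 2) := by
  obtain ⟨K, c, hc, hmu⟩ := mixture hf
  have hcs : ∑ a ∈ range K, c a = 1 := by
    rw [hmu, ms_sum] at h1
    rw [← h1]
    exact Finset.sum_congr rfl fun a _ => by rw [ms_smul, ms_U, mul_one]
  have hF : F f k = ∑ a ∈ range K, c a * F (U a) k := by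
    conv_lhs => rw [hmu]
    rw [F_sum]
    exact Finset.sum_congr rfl fun a _ => F_smul _ _ _
  have e : (1 - U k) * (f * f * f) = ∑ a ∈ range K, ∑ b ∈ range K, ∑ d ∈ range K,
      (c a * c b * c d) • ((1 - U k) * (U a * U b * U d)) := by
    conv_lhs => rw [hmu]
    rw [Finset.sum_mul_sum, Finset.sum_mul, Finset.mul_sum]
    refine Finset.sum_congr rfl fun a _ => ?_
    rw [Finset.sum_mul, Finset.mul_sum]
    refine Finset.sum_congr rfl fun b _ => ?_
    rw [Finset.mul_sum, Finset.mul_sum]
    refine Finset.sum_congr rfl fun d _ => ?_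
    rw [smul_mul_smul_comm, smul_mul_smul_comm, mul_smul_comm]
  rw [e]
  have h2 : HM (∑ a ∈ range K, ∑ b ∈ range K, ∑ d ∈ range K,
      (c a * c b * c d) • ((1 - U k) * (U a * U b * U d)))
      (∑ a ∈ range K, ∑ b ∈ range K, ∑ d ∈ range K, (c a * c b * c d) *
        (8 * (F (U a) k * F (U b) k + F (U a) k * F (U d) k + F (U b) k * F (U d) k))) := by
    refine HM_sum _ _ _ fun a _ => HM_sum _ _ _ fun b _ => HM_sum _ _ _ fun d _ => ?_
    have h3 := (triple k a b d).smul (c a * c b * c d)
    rwa [abs_of_nonneg (mul_nonneg (mul_nonneg (hc a) (hc b)) (hc d))] at h3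
  refine h2.mono (le_of_eq ?_)
  set G : ℝ := F f k with hG
  have e2 : ∀ a b d : ℕ, (c a * c b * c d) *
        (8 * (F (U a) k * F (U b) k + F (U a) k * F (U d) k + F (U b) k * F (U d) k)) =
      8 * ((c a * F (U a) k) * (c b * F (U b) k) * c d) +
      8 * ((c a * F (U a) k) * c b * (c d * F (U d) k)) +
      8 * (c a * (c b * F (U b) k) * (c d * F (U d) k)) := fun a b d => by ring
  simp only [e2, Finset.sum_add_distrib, ← Finset.mul_sum, ← Finset.sum_mul, ← hF, hcs]
  ring

end Pool.Agent.T6.H51.RM
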