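import Mathlib
import Pool.Agent.T6.H51.RM.B

/-!
Powers of symmetric unimodal probability measures: `μ ^ n (1 - μ) ^ m` has a symmetric decreasing
majorant of mass at most a constant times `n ^ (-m)` (helper51; the Fourier part is the argument of
`Pool.Agent.R434.RittC`).
-/

set_option autoImplicit false

namespace Pool.Agent.T6.H51.RM

open Finset MeasureTheory Pool.Agent.R434.Ritt

/-- the main estimate -/
lemma sum_bound {μ : L} (hU : Uni μ) (h1 : ∑' x : ℤ, μ.coeff x = 1) (N : ℕ) (hN : 1 ≤ N) :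
    ∃ (K : ℕ) (c : ℕ → ℝ), (∀ k, 0 ≤ c k) ∧ μ = ∑ k ∈ range K, c k • U k ∧
      ∑ k ∈ range K, c k = 1 ∧
      ∑ k ∈ range K, c k * (if k = 0 then 0 else F (μ ^ N) k ^ 2) ≤ 2000 / N := by
  obtain ⟨K, c, hc, hmu⟩ := mixture hU
  have hN0 : (0 : ℝ) < N := by exact_mod_cast hN
  -- total mass one
  have hcs : ∑ k ∈ range K, c k = 1 := by
    have h2 : E 0 μ = 1 := by rw [E_zero, h1]; simp
    rw [hmu, map_sum] at h2
    have h3 : ∀ k ∈ range K, E 0 (c k • U k) = (c k : ℂ) := by
      intro k _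
      rw [map_smul, E_U]
      have : S k 0 = 2 * k + 1 := by
        unfold S
        simp
      rw [this, one_div, inv_mul_cancel₀ (by positivity)]
      simp
    rw [Finset.sum_congr rfl h3] at h2
    exact_mod_cast h2
  set v : ℝ → ℝ := fun t => ∑ k ∈ range K, c k * w k t with hv
  set v' : ℝ → ℝ := fun t => ∑ k ∈ range K, c k * w' k t with hv'
  have hvd : ∀ t, HasDerivAt v (v' t) t := fun t =>
    HasDerivAt.fun_sum fun k _ => (hasDerivAt_w k t).const_mul (c k)
  have hvc : Continuous v := continuous_iff_continuousAt.2 fun t => (hvd t).continuousAt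
  have hvc' : Continuous v' := continuous_finsetSum _ fun k _ => continuous_const.mul (continuous_w' k)
  have hv0 : ∀ t, 0 ≤ v t := fun t => Finset.sum_nonneg fun k _ => mul_nonneg (hc k) (w_nonneg k t)
  set g : ℝ → ℝ := fun t => Real.exp (-(N * v t / 20)) with hg
  have hgc : Continuous g := by
    have : Continuous fun t => -(N * v t / 20) := ((continuous_const.mul hvc).div_const 20).neg
    exact Real.continuous_exp.comp this
  have hg0 : ∀ t, 0 ≤ g t := fun t => (Real.exp_pos _).le
  have hg1 : ∀ t, g t ≤ 1 := by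
    intro t
    refine Real.exp_le_one_iff.2 ?_
    have := mul_nonneg hN0.le (hv0 t)
    linarith
  set f := μ ^ N with hf
  have hfU : Uni f := hU.pow N
  have hE : ∀ t, 0 ≤ t → t ≤ 1 → ‖E t f‖ ≤ g t := by
    intro t ht0 ht1
    have h2 : ‖E t μ‖ ≤ 1 - v t / 20 := by
      rw [hmu, map_sum]
      refine (norm_sum_le _ _).trans ?_
      have h3 : ∀ k ∈ range K, ‖E t (c k • U k)‖ ≤ c k * (1 - w k t / 20) := by
        intro k _
        rw [map_smul, norm_smul, Real.norm_eq_abs, abs_of_nonneg (hc k)]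
        exact mul_le_mul_of_nonneg_left (norm_E_U k t ht0 ht1) (hc k)
      refine (Finset.sum_le_sum h3).trans (le_of_eq ?_)
      calc ∑ k ∈ range K, c k * (1 - w k t / 20)
          = ∑ k ∈ range K, (c k - c k * w k t / 20) := Finset.sum_congr rfl fun k _ => by ring
        _ = 1 - v t / 20 := by
          rw [Finset.sum_sub_distrib, hcs, Finset.sum_div]
    have h3 : ‖E t μ‖ ≤ Real.exp (-(v t / 20)) := by
      have := Real.add_one_le_exp (-(v t / 20))
      linarith
    rw [hf, map_pow, norm_pow]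
    refine (pow_le_pow_left₀ (norm_nonneg _) h3 N).trans (le_of_eq ?_)
    rw [← Real.exp_nat_mul, hg]
    congr 1
    ring
  -- the bound for one `k`
  have hFk : ∀ k : ℕ, 1 ≤ k → F f k ^ 2 ≤ 100 * ∫ t in (0 : ℝ)..1, w' k t * g t := by
    intro k hk
    have hk0 : (0 : ℝ) < k := by exact_mod_cast hk
    have hk1 : (1 : ℝ) / k ≤ 1 := by
      rw [div_le_one hk0]
      exact_mod_cast hk
    have h2 : F f k ≤ 5 * k * ∫ t in (0 : ℝ)..(1 / k), g t := by
      refine (F_le f hfU.nonneg k hk).trans (mul_le_mul_of_nonneg_left ?_ (by positivity))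
      refine intervalIntegral.integral_mono_on (by positivity) ?_ (hgc.intervalIntegrable _ _)
        fun t ht => hE t ht.1 (ht.2.trans hk1)
      exact (continuous_E f).norm.intervalIntegrable _ _
    have h3 : F f k ^ 2 ≤ (5 * k * ∫ t in (0 : ℝ)..(1 / k), g t) ^ 2 :=
      pow_le_pow_left₀ (F_nonneg hfU k) h2 2
    refine h3.trans ?_
    rw [mul_pow]
    have h4 := bathtub g hgc hg0 hg1 (1 / k) (by positivity)
    have h5 := mul_le_mul_of_nonneg_left h4 (by positivity : (0 : ℝ) ≤ (5 * (k : ℝ)) ^ 2)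
    refine h5.trans ?_
    have h6 : (5 * (k : ℝ)) ^ 2 * (2 * ∫ t in (0 : ℝ)..(1 / k), t * g t) =
        25 * ∫ t in (0 : ℝ)..(1 / k), 2 * (k : ℝ) ^ 2 * t * g t := by
      have h7 : ∀ t : ℝ, 2 * (k : ℝ) ^ 2 * t * g t = 2 * (k : ℝ) ^ 2 * (t * g t) := fun t => by ring
      simp only [h7]
      rw [intervalIntegral.integral_const_mul]
      ring
    rw [h6]
    have hwg : Continuous fun t => w' k t * g t := (continuous_w' k).mul hgc
    have h7 : ∫ t in (0 : ℝ)..(1 / k), 2 * (k : ℝ) ^ 2 * t * g t ≤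
        ∫ t in (0 : ℝ)..(1 / k), 4 * (w' k t * g t) := by
      refine intervalIntegral.integral_mono_on (by positivity) ?_ ?_ fun t ht => ?_
      · apply Continuous.intervalIntegrable
        fun_prop
      · exact (continuous_const.mul hwg).intervalIntegrable _ _
      · have := mul_le_mul_of_nonneg_right (w'_lower k hk t ht.1 ht.2) (hg0 t)
        linarith
    rw [intervalIntegral.integral_const_mul] at h7
    have h8 : ∫ t in (0 : ℝ)..(1 / k), w' k t * g t ≤ ∫ t in (0 : ℝ)..1, w' k t * g t := by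
      rw [← intervalIntegral.integral_add_adjacent_intervals (hwg.intervalIntegrable 0 (1 / k))
        (hwg.intervalIntegrable (1 / k) 1)]
      have : 0 ≤ ∫ t in (1 / (k : ℝ))..1, w' k t * g t := by
        refine intervalIntegral.integral_nonneg hk1 fun t ht => ?_
        have ht0 : (0 : ℝ) ≤ t := le_trans (by positivity) ht.1
        exact mul_nonneg (w'_nonneg k t ht0) (hg0 t)
      linarith
    linarith
  -- integral of `v' g`
  have hvg : ∫ t in (0 : ℝ)..1, v' t * g t ≤ 20 / N := by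
    have h2 : ∫ t in (0 : ℝ)..1, v' t * g t = -(20 / N * g 1) - -(20 / N * g 0) := by
      refine intervalIntegral.integral_eq_sub_of_hasDerivAt (f := fun t => -(20 / N * g t))
        (fun t _ => ?_) ?_
      · have h3 : HasDerivAt (fun t => -(N * v t / 20)) (-(N * v' t / 20)) t :=
          (((hvd t).const_mul (N : ℝ)).div_const 20).neg
        have h4 := (h3.exp.const_mul (20 / (N : ℝ))).neg
        refine h4.congr_deriv ?_
        simp only [hg]
        field_simp
      · exact (hvc'.mul hgc).intervalIntegrable _ _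
    rw [h2]
    have h3 : 0 ≤ 20 / (N : ℝ) * g 1 := mul_nonneg (by positivity) (hg0 1)
    have h4 : 20 / (N : ℝ) * g 0 ≤ 20 / N * 1 := mul_le_mul_of_nonneg_left (hg1 0) (by positivity)
    linarith
  refine ⟨K, c, hc, hmu, hcs, ?_⟩
  have h2 : ∀ k ∈ range K, c k * (if k = 0 then 0 else F f k ^ 2) ≤
      100 * ∫ t in (0 : ℝ)..1, c k * w' k t * g t := by
    intro k _
    rcases Nat.eq_zero_or_pos k with h | h
    · subst h
      rw [if_pos rfl, mul_zero]
      have h4 : 0 ≤ ∫ t in (0 : ℝ)..1, c 0 * w' 0 t * g t :=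
        intervalIntegral.integral_nonneg (by norm_num) fun t ht =>
          mul_nonneg (mul_nonneg (hc 0) (w'_nonneg 0 t ht.1)) (hg0 t)
      linarith
    · rw [if_neg (by omega)]
      have h4 := mul_le_mul_of_nonneg_left (hFk k h) (hc k)
      refine h4.trans (le_of_eq ?_)
      have h5 : ∀ t : ℝ, c k * w' k t * g t = c k * (w' k t * g t) := fun t => by ring
      simp only [h5]
      rw [intervalIntegral.integral_const_mul]
      ring
  refine (Finset.sum_le_sum h2).trans ?_
  rw [← Finset.mul_sum, ← intervalIntegral.integral_finsetSum]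
  · have h3 : ∀ t : ℝ, ∑ k ∈ range K, c k * w' k t * g t = v' t * g t := by
      intro t
      rw [← Finset.sum_mul]
    simp only [h3]
    have : (100 : ℝ) * (20 / N) = 2000 / N := by ring
    linarith
  · intro k _
    exact ((continuous_const.mul (continuous_w' k)).mul hgc).intervalIntegrable _ _

lemma U_zero' : U 0 = 1 := by
  unfold U
  simp [T_zero]

/-- the majorant for multiples of three -/
theorem three_bound {μ : L} (hU : Uni μ) (h1 : ms μ = 1) (N : ℕ) (hN : 1 ≤ N) :
    HM (μ ^ (3 * N) * (1 - μ)) (48000 / N) := by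
  obtain ⟨K, c, hc, hmu, hcs, hs⟩ := sum_bound hU h1 N hN
  have hfU : Uni (μ ^ N) := hU.pow N
  have hf1 : ms (μ ^ N) = 1 := by
    clear hN hs hfU
    induction N with
    | zero => rw [pow_zero, ms_one]
    | succ n ih => rw [pow_succ, ms_mul, ih, h1, mul_one]
  have h3 : μ ^ (3 * N) * (1 - μ) =
      ∑ k ∈ range K, c k • ((1 - U k) * (μ ^ N * μ ^ N * μ ^ N)) := by
    have h4 : (1 : L) - μ = ∑ k ∈ range K, c k • (1 - U k) := by
      simp only [smul_sub]
      rw [Finset.sum_sub_distrib, ← Finset.sum_smul, hcs, one_smul, ← hmu]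
    rw [h4, Finset.mul_sum]
    refine Finset.sum_congr rfl fun k _ => ?_
    rw [mul_smul_comm]
    congr 1
    ring
  rw [h3]
  have h5 : HM (∑ k ∈ range K, c k • ((1 - U k) * (μ ^ N * μ ^ N * μ ^ N)))
      (∑ k ∈ range K, 24 * (c k * (if k = 0 then 0 else F (μ ^ N) k ^ 2))) := by
    refine HM_sum _ _ _ fun k _ => ?_
    rcases Nat.eq_zero_or_pos k with h | h
    · subst h
      rw [U_zero', sub_self, zero_mul, smul_zero, if_pos rfl, mul_zero, mul_zero]
      exact HM_zero
    · rw [if_neg (by omega)]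
      have h6 := (key3 hfU hf1 k).smul (c k)
      rw [abs_of_nonneg (hc k)] at h6
      refine h6.mono (le_of_eq ?_)
      ring
  refine h5.mono ?_
  rw [← Finset.mul_sum]
  calc 24 * ∑ k ∈ range K, c k * (if k = 0 then 0 else F (μ ^ N) k ^ 2) ≤ 24 * (2000 / N) :=
        mul_le_mul_of_nonneg_left hs (by norm_num)
    _ = 48000 / N := by ring

lemma ms_pow {μ : L} (h1 : ms μ = 1) (n : ℕ) : ms (μ ^ n) = 1 := by
  induction n with
  | zero => rw [pow_zero, ms_one]
  | succ n ih => rw [pow_succ, ms_mul, ih, h1, mul_one]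

/-- order one -/
theorem one_bound {μ : L} (hU : Uni μ) (h1 : ms μ = 1) (n : ℕ) (hn : 1 ≤ n) :
    HM (μ ^ n * (1 - μ)) (240000 / n) := by
  have hn0 : (0 : ℝ) < n := by exact_mod_cast hn
  rcases Nat.lt_or_ge n 3 with h | h
  · have e : μ ^ n * (1 - μ) = μ ^ n - μ ^ (n + 1) := by ring
    rw [e]
    have h2 := (HM_uni (hU.pow n)).sub (HM_uni (hU.pow (n + 1)))
    rw [ms_pow h1, ms_pow h1] at h2
    refine h2.mono ?_
    rw [le_div_iff₀ hn0]
    have : (n : ℝ) ≤ 2 := by exact_mod_cast Nat.lt_succ_iff.1 h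
    linarith
  · obtain ⟨N, r, hr, hN⟩ : ∃ N r, r < 3 ∧ n = r + 3 * N := ⟨n / 3, n % 3, by omega, by omega⟩
    have hN1 : 1 ≤ N := by omega
    have hN0 : (0 : ℝ) < N := by exact_mod_cast hN1
    have e : μ ^ n * (1 - μ) = μ ^ r * (μ ^ (3 * N) * (1 - μ)) := by rw [hN]; ring
    rw [e]
    have h2 := (HM_uni (hU.pow r)).mul (three_bound hU h1 N hN1)
    rw [ms_pow h1, one_mul] at h2
    refine h2.mono ?_
    rw [div_le_div_iff₀ hN0 hn0]
    have : (n : ℝ) ≤ 5 * N := by
      have : n ≤ 5 * N := by omega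
      exact_mod_cast this
    linarith

/-- order `m` -/
theorem m_bound {μ : L} (hU : Uni μ) (h1 : ms μ = 1) (m n : ℕ) (hn : 1 ≤ n) :
    HM (μ ^ n * (1 - μ) ^ m) ((480000 * m) ^ m / n ^ m) := by
  have hn0 : (0 : ℝ) < n := by exact_mod_cast hn
  rcases Nat.eq_zero_or_pos m with hm | hm
  · subst hm
    rw [pow_zero, pow_zero, pow_zero, mul_one, div_one]
    have h2 := HM_uni (hU.pow n)
    rwa [ms_pow h1] at h2
  have hm0 : (0 : ℝ) < m := by exact_mod_cast hm
  have hpow : ∀ (p : L) (c : ℝ), HM p c → ∀ j : ℕ, HM (p ^ j) (c ^ j) := by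
    intro p c hp j
    induction j with
    | zero =>
      rw [pow_zero, pow_zero]
      have := HM_uni Uni_one
      rwa [ms_one] at this
    | succ j ih =>
      rw [pow_succ, pow_succ]
      exact ih.mul hp
  rw [← div_pow]
  rcases Nat.lt_or_ge n m with h | h
  · have h2 : HM (1 - μ) 2 := by
      have h3 := (HM_uni Uni_one).sub (HM_uni hU)
      rw [ms_one, h1] at h3
      exact h3.mono (by norm_num)
    have h4 := (HM_uni (hU.pow n)).mul (hpow _ _ h2 m)
    rw [ms_pow h1, one_mul] at h4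
    refine h4.mono (pow_le_pow_left₀ (by norm_num) ?_ m)
    rw [le_div_iff₀ hn0]
    have : (n : ℝ) ≤ m := by exact_mod_cast h.le
    nlinarith
  · obtain ⟨q, r, hr, hq⟩ : ∃ q r, r < m ∧ n = r + q * m :=
      ⟨n / m, n % m, Nat.mod_lt _ hm, by rw [Nat.mod_add_div' n m]⟩
    have hq1 : 1 ≤ q := by
      rcases Nat.eq_zero_or_pos q with h0 | h0
      · subst h0
        omega
      · exact h0
    have hq0 : (0 : ℝ) < q := by exact_mod_cast hq1
    have e : μ ^ n * (1 - μ) ^ m = μ ^ r * (μ ^ q * (1 - μ)) ^ m := by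
      rw [hq, mul_pow, pow_add, ← pow_mul]
      ring
    rw [e]
    have h2 := (HM_uni (hU.pow r)).mul (hpow _ _ (one_bound hU h1 q hq1) m)
    rw [ms_pow h1, one_mul] at h2
    refine h2.mono (pow_le_pow_left₀ (by positivity) ?_ m)
    rw [div_le_div_iff₀ hq0 hn0]
    have h5 : (n : ℝ) ≤ 2 * (q * m) := by
      have h6 : n ≤ 2 * (q * m) := by
        have : m ≤ q * m := Nat.le_mul_of_pos_left m hq1
        omega
      exact_mod_cast h6
    nlinarith

end Pool.Agent.T6.H51.RM
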