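import Mathlib
import Pool.Agent.T6.H51.RM.C

/-!
The Hardy-Littlewood maximal inequality on the integers and the domination of convolutions
(helper51).
-/

set_option autoImplicit false

namespace Pool.Agent.T6.H51.RM

open Finset Pool.Agent.R434.Ritt

/-- all averages of `g` over the intervals `[x - r, x + r]` are at most `A` -/
def Av (g : ℤ → ℝ) (x : ℤ) (A : ℝ) : Prop :=
  ∀ r : ℕ, ∑ y ∈ Icc (x - r) (x + r), g y ≤ A * (2 * r + 1)

lemma card_Icc' (x : ℤ) (r : ℕ) : (Icc (x - r) (x + r)).card = 2 * r + 1 := by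
  rw [Int.card_Icc]
  omega

theorem hl_fin (g : ℤ → ℝ) (hg : ∀ x, 0 ≤ g x) (hs : Summable g) (A : ℝ) (hA : 0 < A)
    (t : Finset ℤ) (ht : ∀ x ∈ t, ¬ Av g x A) : (t.card : ℝ) * A ≤ 4 * ∑' x, g x := by
  classical
  have h1 : ∀ x : ℤ, ∃ r : ℕ, x ∈ t → A * (2 * r + 1) < ∑ y ∈ Icc (x - r) (x + r), g y := by
    intro x
    by_cases hx : x ∈ t
    · have h2 := ht x hx
      unfold Av at h2
      push Not at h2
      obtain ⟨r, hr⟩ := h2
      exact ⟨r, fun _ => hr⟩
    · exact ⟨0, fun h => absurd h hx⟩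
  choose r hr using h1
  obtain ⟨u, hut, hdis, hcov⟩ := Vitali.exists_disjoint_subfamily_covering_enlargement_closedBall
    (t : Set ℤ) (fun x : ℤ => x) (fun x : ℤ => (r x : ℝ)) (∑ x ∈ t, (r x : ℝ))
    (fun a ha => Finset.single_le_sum (f := fun x => (r x : ℝ)) (fun i _ => Nat.cast_nonneg _) ha)
    4 (by norm_num)
  have hufin : u.Finite := t.finite_toSet.subset hut
  set v : Finset ℤ := hufin.toFinset with hv
  have hball : ∀ (x : ℤ) (n : ℕ), Metric.closedBall x (n : ℝ) = (Icc (x - n) (x + n) : Finset ℤ) := by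
    intro x n
    rw [Int.closedBall_eq_Icc, Finset.coe_Icc]
    congr 1
    · rw [show (x : ℝ) - (n : ℝ) = ((x - n : ℤ) : ℝ) by push_cast; ring, Int.ceil_intCast]
    · rw [show (x : ℝ) + (n : ℝ) = ((x + n : ℤ) : ℝ) by push_cast; ring, Int.floor_intCast]
  -- the cardinality of `t`
  have hcard : (t.card : ℝ) ≤ ∑ b ∈ v, 4 * (2 * (r b : ℝ) + 1) := by
    have h2 : t ⊆ v.biUnion fun b => Icc (b - (4 * r b : ℕ)) (b + (4 * r b : ℕ)) := by
      intro a ha
      obtain ⟨b, hb, hsub⟩ := hcov a ha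
      have h3 : a ∈ Metric.closedBall b (4 * (r b : ℝ)) :=
        hsub (Metric.mem_closedBall_self (Nat.cast_nonneg _))
      have h4 : (4 * (r b : ℝ)) = ((4 * r b : ℕ) : ℝ) := by push_cast; ring
      rw [h4, hball] at h3
      rw [Finset.mem_biUnion]
      exact ⟨b, hufin.mem_toFinset.2 hb, h3⟩
    have h3 := (Finset.card_le_card h2).trans Finset.card_biUnion_le
    have h4 : (t.card : ℝ) ≤ ((∑ b ∈ v, (Icc (b - (4 * r b : ℕ)) (b + (4 * r b : ℕ))).card : ℕ) : ℝ) := by
      exact_mod_cast h3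
    refine h4.trans ?_
    push_cast
    refine Finset.sum_le_sum fun b _ => ?_
    have h5 := card_Icc' b (4 * r b)
    push_cast at h5
    rw [h5]
    push_cast
    linarith
  -- disjointness
  have hdis' : ∑ b ∈ v, ∑ y ∈ Icc (b - r b) (b + r b), g y ≤ ∑' x, g x := by
    rw [← Finset.sum_biUnion]
    · exact hs.sum_le_tsum _ fun x _ => hg x
    · intro a ha b hb hab
      have h2 := hdis (hufin.mem_toFinset.1 ha) (hufin.mem_toFinset.1 hb) hab
      simp only [Function.onFun] at h2 ⊢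
      rw [hball, hball, Finset.disjoint_coe] at h2
      exact h2
  calc (t.card : ℝ) * A ≤ (∑ b ∈ v, 4 * (2 * (r b : ℝ) + 1)) * A :=
        mul_le_mul_of_nonneg_right hcard hA.le
    _ = 4 * ∑ b ∈ v, A * (2 * (r b : ℝ) + 1) := by
        rw [Finset.sum_mul, Finset.mul_sum]
        exact Finset.sum_congr rfl fun b _ => by ring
    _ ≤ 4 * ∑ b ∈ v, ∑ y ∈ Icc (b - r b) (b + r b), g y := by
        refine mul_le_mul_of_nonneg_left (Finset.sum_le_sum fun b hb => ?_) (by norm_num)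
        exact (hr b (hut (hufin.mem_toFinset.1 hb))).le
    _ ≤ 4 * ∑' x, g x := mul_le_mul_of_nonneg_left hdis' (by norm_num)

/-- **Hardy-Littlewood on the integers.** -/
theorem hl (g : ℤ → ℝ) (hg : ∀ x, 0 ≤ g x) (hs : Summable g) (A : ℝ) (hA : 0 < A) :
    {x | ¬ Av g x A}.Finite ∧ (({x | ¬ Av g x A}.ncard : ℕ) : ℝ) * A ≤ 4 * ∑' x, g x := by
  have hfin : {x | ¬ Av g x A}.Finite := by
    by_contra hinf
    obtain ⟨n, hn⟩ := exists_nat_gt (4 * ∑' x, g x / A)
    obtain ⟨t, ht, hc⟩ := Set.Infinite.exists_subset_card_eq hinf n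
    have h2 := hl_fin g hg hs A hA t fun x hx => ht hx
    rw [hc, ← le_div_iff₀ hA, mul_div_assoc, ← tsum_div_const] at h2
    linarith
  refine ⟨hfin, ?_⟩
  rw [Set.ncard_eq_toFinset_card _ hfin]
  exact hl_fin g hg hs A hA _ fun x hx => hfin.mem_toFinset.1 hx

/-- pairing with a finitely supported function -/
noncomputable def pr (g : ℤ → ℝ) (x : ℤ) (p : L) : ℝ := ∑' y, p.coeff y * g (x - y)

lemma pr_summ (g : ℤ → ℝ) (x : ℤ) (p : L) : Summable fun y => p.coeff y * g (x - y) := by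
  refine summable_of_ne_finset_zero (s := p.coeff.support) fun y hy => ?_
  have : p.coeff y = 0 := by simpa using hy
  rw [this, zero_mul]

lemma pr_add (g : ℤ → ℝ) (x : ℤ) (p q : L) : pr g x (p + q) = pr g x p + pr g x q := by
  unfold pr
  rw [← (pr_summ g x p).tsum_add (pr_summ g x q)]
  exact tsum_congr fun y => by rw [AddMonoidAlgebra.coeff_add, Finsupp.add_apply, add_mul]

lemma pr_smul (g : ℤ → ℝ) (x : ℤ) (c : ℝ) (p : L) : pr g x (c • p) = c * pr g x p := by
  unfold pr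
  rw [← tsum_mul_left]
  exact tsum_congr fun y => by rw [AddMonoidAlgebra.coeff_smul_apply, smul_eq_mul, mul_assoc]

lemma pr_zero (g : ℤ → ℝ) (x : ℤ) : pr g x 0 = 0 := by
  unfold pr
  simp

lemma pr_sum {ι : Type*} (g : ℤ → ℝ) (x : ℤ) (s : Finset ι) (f : ι → L) :
    pr g x (∑ i ∈ s, f i) = ∑ i ∈ s, pr g x (f i) := by
  classical
  induction s using Finset.induction_on with
  | empty => simp only [Finset.sum_empty, pr_zero]
  | insert a s ha ih => rw [Finset.sum_insert ha, Finset.sum_insert ha, pr_add, ih]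

lemma pr_U (g : ℤ → ℝ) (x : ℤ) (A : ℝ) (h : Av g x A) (k : ℕ) : pr g x (U k) ≤ A := by
  have h1 : pr g x (U k) = (1 / (2 * k + 1)) * ∑ y ∈ Icc (x - k) (x + k), g y := by
    unfold pr
    rw [tsum_eq_sum (s := Icc (-(k : ℤ)) k), Finset.mul_sum]
    · refine Finset.sum_nbij' (fun y => x - y) (fun y => x - y) ?_ ?_ ?_ ?_ ?_
      · intro y hy
        rw [Finset.mem_Icc] at hy ⊢
        constructor <;> omega
      · intro y hy
        rw [Finset.mem_Icc] at hy ⊢
        constructor <;> omega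
      · intro y _
        ring
      · intro y _
        ring
      · intro y hy
        rw [Finset.mem_Icc] at hy
        rw [U_coeff, if_pos (abs_le.2 hy)]
    · intro y hy
      rw [U_coeff, if_neg, zero_mul]
      intro h2
      exact hy (Finset.mem_Icc.2 (abs_le.1 h2))
  rw [h1, one_div, inv_mul_le_iff₀ (by positivity)]
  have := h k
  linarith

lemma pr_uni (g : ℤ → ℝ) (x : ℤ) (A : ℝ) (h : Av g x A) {G : L} (hG : Uni G) :
    pr g x G ≤ ms G * A := by
  obtain ⟨K, c, hc, e⟩ := mixture hG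
  have h1 : pr g x G = ∑ k ∈ range K, c k * pr g x (U k) := by
    conv_lhs => rw [e]
    rw [pr_sum]
    exact Finset.sum_congr rfl fun k _ => pr_smul _ _ _ _
  have h2 : ms G = ∑ k ∈ range K, c k := by
    conv_lhs => rw [e]
    rw [ms_sum]
    exact Finset.sum_congr rfl fun k _ => by rw [ms_smul, ms_U, mul_one]
  rw [h1, h2, Finset.sum_mul]
  exact Finset.sum_le_sum fun k _ => mul_le_mul_of_nonneg_left (pr_U g x A h k) (hc k)

/-- **Domination.** -/
theorem dom (f : ℤ → ℂ) (x : ℤ) (A : ℝ) (hA : Av (fun y => ‖f y‖) x A) {p : L} {c : ℝ}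
    (hp : HM p c) : ‖∑' y, (p.coeff y : ℂ) * f (x - y)‖ ≤ c * A := by
  obtain ⟨G, h1, h2, h3⟩ := hp
  have hA0 : 0 ≤ A := by
    have h4 := hA 0
    simp only [Nat.cast_zero, sub_zero, add_zero, Finset.Icc_self, Finset.sum_singleton, mul_zero,
      zero_add, mul_one] at h4
    exact (norm_nonneg _).trans h4
  have hsum : Summable fun y => ‖(p.coeff y : ℂ) * f (x - y)‖ := by
    refine summable_of_ne_finset_zero (s := p.coeff.support) fun y hy => ?_
    have : p.coeff y = 0 := by simpa using hy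
    rw [this, Complex.ofReal_zero, zero_mul, norm_zero]
  refine (norm_tsum_le_tsum_norm hsum).trans ?_
  have h4 : ∑' y, ‖(p.coeff y : ℂ) * f (x - y)‖ ≤ pr (fun y => ‖f y‖) x G := by
    have key : ∀ y, ‖(p.coeff y : ℂ) * f (x - y)‖ ≤ G.coeff y * (fun y => ‖f y‖) (x - y) := by
      intro y
      rw [norm_mul, Complex.norm_real, Real.norm_eq_abs]
      exact mul_le_mul_of_nonneg_right (h2 y) (norm_nonneg _)
    exact Summable.tsum_le_tsum key hsum (pr_summ (fun y => ‖f y‖) x G)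
  exact h4.trans ((pr_uni _ x A hA h1).trans (mul_le_mul_of_nonneg_right h3 hA0))

end Pool.Agent.T6.H51.RM
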