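import Mathlib
import Pool.Agent.T6.H51.RM.D

/-!
Convolutions with summable kernels: associativity and stability (helper51).
-/

set_option autoImplicit false

namespace Pool.Agent.T6.H51.RM

open Finset Filter Topology

/-- convolution of a real kernel with a complex function -/
noncomputable def conv (ν : ℤ → ℝ) (g : ℤ → ℂ) (k : ℤ) : ℂ := ∑' j : ℤ, (ν j : ℂ) * g (k - j)

/-- convolution of two real kernels -/
noncomputable def cvr (ν ρ : ℤ → ℝ) (k : ℤ) : ℝ := ∑' j : ℤ, ν j * ρ (k - j)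

/-- the unit mass at the origin -/
def del : ℤ → ℝ := fun k => if k = 0 then 1 else 0

/-- convolution powers -/
noncomputable def convPow (ν : ℤ → ℝ) : ℕ → ℤ → ℝ
  | 0 => del
  | n + 1 => cvr ν (convPow ν n)

/-- bounded functions -/
def Bd (g : ℤ → ℂ) : Prop := ∃ B : ℝ, ∀ x, ‖g x‖ ≤ B

lemma summ_mul {a : ℤ → ℝ} (ha : Summable fun k => |a k|) {g : ℤ → ℂ} {B : ℝ}
    (hg : ∀ x, ‖g x‖ ≤ B) (k : ℤ) : Summable fun j => ‖(a j : ℂ) * g (k - j)‖ := by
  refine Summable.of_nonneg_of_le (fun j => norm_nonneg _) (fun j => ?_) (ha.mul_right B)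
  rw [norm_mul, Complex.norm_real, Real.norm_eq_abs]
  exact mul_le_mul_of_nonneg_left (hg _) (abs_nonneg _)

lemma conv_le {a : ℤ → ℝ} (ha : Summable fun k => |a k|) {g : ℤ → ℂ} {B : ℝ}
    (hg : ∀ x, ‖g x‖ ≤ B) (k : ℤ) : ‖conv a g k‖ ≤ (∑' j, |a j|) * B := by
  unfold conv
  refine (norm_tsum_le_tsum_norm (summ_mul ha hg k)).trans ?_
  rw [← tsum_mul_right]
  refine Summable.tsum_le_tsum (fun j => ?_) (summ_mul ha hg k) (ha.mul_right B)
  rw [norm_mul, Complex.norm_real, Real.norm_eq_abs]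
  exact mul_le_mul_of_nonneg_left (hg _) (abs_nonneg _)

lemma conv_bd {a : ℤ → ℝ} (ha : Summable fun k => |a k|) {g : ℤ → ℂ} (hg : Bd g) :
    Bd (conv a g) := by
  obtain ⟨B, hB⟩ := hg
  exact ⟨_, fun k => conv_le ha hB k⟩

/-- summability of the double family -/
lemma double_summ {a b : ℤ → ℝ} (ha : Summable fun k => |a k|) (hb : Summable fun k => |b k|) :
    Summable fun p : ℤ × ℤ => |a p.1| * |b (p.2 - p.1)| := by
  have h1 : Summable fun p : ℤ × ℤ => |a p.1| * |b p.2| :=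
    ha.mul_of_nonneg hb (fun _ => abs_nonneg _) fun _ => abs_nonneg _
  let e : ℤ × ℤ ≃ ℤ × ℤ :=
    { toFun := fun p => (p.1, p.2 - p.1)
      invFun := fun p => (p.1, p.2 + p.1)
      left_inv := fun p => by simp
      right_inv := fun p => by simp }
  exact (e.summable_iff (f := fun p : ℤ × ℤ => |a p.1| * |b p.2|)).2 h1

lemma cvr_summ {a b : ℤ → ℝ} (ha : Summable fun k => |a k|) (hb : Summable fun k => |b k|) :
    Summable fun k => |cvr a b k| := by
  have h1 := double_summ ha hb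
  have h2 : Summable fun p : ℤ × ℤ => |a p.2| * |b (p.1 - p.2)| :=
    ((Equiv.prodComm ℤ ℤ).summable_iff (f := fun p : ℤ × ℤ => |a p.1| * |b (p.2 - p.1)|)).2 h1
  have h3 := h2.prod
  refine Summable.of_nonneg_of_le (fun _ => abs_nonneg _) (fun k => ?_) h3
  have h4 : Summable fun j => ‖a j * b (k - j)‖ := by
    have := h2.prod_factor k
    refine this.congr fun j => ?_
    rw [norm_mul, Real.norm_eq_abs, Real.norm_eq_abs]
  unfold cvr
  rw [← Real.norm_eq_abs]
  refine (norm_tsum_le_tsum_norm h4).trans (le_of_eq ?_)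
  refine tsum_congr fun j => ?_
  rw [norm_mul, Real.norm_eq_abs, Real.norm_eq_abs]

/-- **Associativity.** -/
theorem conv_assoc {a b : ℤ → ℝ} (ha : Summable fun k => |a k|) (hb : Summable fun k => |b k|)
    {g : ℤ → ℂ} (hg : Bd g) : conv (cvr a b) g = conv a (conv b g) := by
  obtain ⟨B, hB⟩ := hg
  funext k
  have hB0 : 0 ≤ B := (norm_nonneg _).trans (hB 0)
  have h1 := double_summ ha hb
  have hS : Summable fun p : ℤ × ℤ => ((a p.1 : ℂ) * b (p.2 - p.1)) * g (k - p.2) := by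
    refine Summable.of_norm_bounded (h1.mul_right B) fun p => ?_
    rw [norm_mul, norm_mul, Complex.norm_real, Complex.norm_real, Real.norm_eq_abs,
      Real.norm_eq_abs]
    exact mul_le_mul_of_nonneg_left (hB _) (mul_nonneg (abs_nonneg _) (abs_nonneg _))
  have e1 : conv (cvr a b) g k = ∑' i, ∑' j, ((a j : ℂ) * b (i - j)) * g (k - i) := by
    unfold conv
    refine tsum_congr fun i => ?_
    unfold cvr
    rw [Complex.ofReal_tsum, ← tsum_mul_right]
    refine tsum_congr fun j => ?_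
    push_cast
    ring
  have e2 : conv a (conv b g) k = ∑' j, ∑' i, ((a j : ℂ) * b (i - j)) * g (k - i) := by
    unfold conv
    refine tsum_congr fun j => ?_
    rw [← tsum_mul_left, ← (Equiv.subRight j).tsum_eq]
    refine tsum_congr fun i => ?_
    simp only [Equiv.subRight_apply]
    rw [mul_assoc]
    congr 3
    ring
  rw [e1, e2]
  exact hS.tsum_comm (f := fun j i => ((a j : ℂ) * b (i - j)) * g (k - i))

lemma del_summ : Summable fun k => |del k| := by
  refine summable_of_ne_finset_zero (s := {0}) fun y hy => ?_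
  unfold del
  rw [if_neg (by simpa using hy), abs_zero]

lemma conv_del (g : ℤ → ℂ) : conv del g = g := by
  funext k
  unfold conv del
  rw [tsum_eq_single 0]
  · simp
  · intro j hj
    rw [if_neg hj]
    simp

lemma convPow_summ {ν : ℤ → ℝ} (h : Summable fun k => |ν k|) (n : ℕ) :
    Summable fun k => |convPow ν n k| := by
  induction n with
  | zero => exact del_summ
  | succ n ih => exact cvr_summ h ih

/-- convolution powers are iterates -/
theorem conv_convPow {ν : ℤ → ℝ} (h : Summable fun k => |ν k|) (n : ℕ) {g : ℤ → ℂ} (hg : Bd g) :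
    conv (convPow ν n) g = (conv ν)^[n] g := by
  induction n with
  | zero => exact conv_del g
  | succ n ih =>
    change conv (cvr ν (convPow ν n)) g = _
    rw [conv_assoc h (convPow_summ h n) hg, ih, Function.iterate_succ_apply']

lemma iter_bd {ν : ℤ → ℝ} (h : Summable fun k => |ν k|) (n : ℕ) {g : ℤ → ℂ} (hg : Bd g) :
    Bd ((conv ν)^[n] g) := by
  induction n with
  | zero => exact hg
  | succ n ih =>
    rw [Function.iterate_succ_apply']
    exact conv_bd h ih

/-- uniform convergence with a rate -/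
def UC (G : ℕ → ℤ → ℂ) (g : ℤ → ℂ) : Prop :=
  ∃ e : ℕ → ℝ, Tendsto e atTop (𝓝 0) ∧ ∀ R x, ‖G R x - g x‖ ≤ e R

/-- convergence of kernels -/
def KC (N : ℕ → ℤ → ℝ) (ν : ℤ → ℝ) : Prop :=
  (∀ R, Summable fun k => |N R k|) ∧ (Summable fun k => |ν k|) ∧
    Tendsto (fun R => ∑' k, |N R k - ν k|) atTop (𝓝 0)

lemma sub_summ {a b : ℤ → ℝ} (ha : Summable fun k => |a k|) (hb : Summable fun k => |b k|) :
    Summable fun k => |a k - b k| :=
  Summable.of_nonneg_of_le (fun _ => abs_nonneg _) (fun k => by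
    have := abs_add_le (a k) (-b k)
    rwa [abs_neg, ← sub_eq_add_neg] at this) (ha.add hb)

lemma conv_sub_left {a b : ℤ → ℝ} (ha : Summable fun k => |a k|) (hb : Summable fun k => |b k|)
    {g : ℤ → ℂ} (hg : Bd g) (k : ℤ) :
    conv a g k - conv b g k = conv (fun j => a j - b j) g k := by
  obtain ⟨B, hB⟩ := hg
  unfold conv
  rw [← (summ_mul ha hB k).of_norm.tsum_sub (summ_mul hb hB k).of_norm]
  refine tsum_congr fun j => ?_
  push_cast
  ring

lemma conv_sub_right {a : ℤ → ℝ} (ha : Summable fun k => |a k|)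
    {g h : ℤ → ℂ} (hg : Bd g) (hh : Bd h) (k : ℤ) :
    conv a g k - conv a h k = conv a (fun x => g x - h x) k := by
  obtain ⟨B, hB⟩ := hg
  obtain ⟨B', hB'⟩ := hh
  unfold conv
  rw [← (summ_mul ha hB k).of_norm.tsum_sub (summ_mul ha hB' k).of_norm]
  refine tsum_congr fun j => ?_
  ring

lemma UC.conv {N : ℕ → ℤ → ℝ} {ν : ℤ → ℝ} (hN : KC N ν) {G : ℕ → ℤ → ℂ} {g : ℤ → ℂ}
    (hG : UC G g) (hg : Bd g) : UC (fun R => RM.conv (N R) (G R)) (RM.conv ν g) := by
  obtain ⟨h1, h2, h3⟩ := hN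
  obtain ⟨e, he, hGe⟩ := hG
  obtain ⟨B, hB⟩ := hg
  have hGB : ∀ R x, ‖G R x‖ ≤ B + e R := by
    intro R x
    have := norm_add_le (g x) (G R x - g x)
    rw [add_sub_cancel] at this
    linarith [hB x, hGe R x]
  refine ⟨fun R => (∑' k, |N R k - ν k|) * (B + e R) + (∑' k, |ν k|) * e R, ?_, fun R x => ?_⟩
  · have h4 := (h3.mul (tendsto_const_nhds (x := B).add he)).add (he.const_mul (∑' k, |ν k|))
    simpa using h4
  · have h5 : RM.conv (N R) (G R) x - RM.conv ν g x =
        RM.conv (fun j => N R j - ν j) (G R) x + RM.conv ν (fun y => G R y - g y) x := by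
      rw [← conv_sub_left (h1 R) h2 ⟨_, hGB R⟩, ← conv_sub_right h2 ⟨_, hGB R⟩ ⟨B, hB⟩]
      ring
    rw [h5]
    refine (norm_add_le _ _).trans (add_le_add ?_ ?_)
    · exact conv_le (sub_summ (h1 R) h2) (hGB R) x
    · exact conv_le h2 (hGe R) x

lemma UC.iter {N : ℕ → ℤ → ℝ} {ν : ℤ → ℝ} (hN : KC N ν) {G : ℕ → ℤ → ℂ} {g : ℤ → ℂ}
    (hG : UC G g) (hg : Bd g) (n : ℕ) :
    UC (fun R => (RM.conv (N R))^[n] (G R)) ((RM.conv ν)^[n] g) := by
  induction n with
  | zero => exact hG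
  | succ n ih =>
    simp only [Function.iterate_succ_apply']
    exact ih.conv hN (iter_bd hN.2.1 n hg)

lemma UC.const (g : ℤ → ℂ) : UC (fun _ => g) g :=
  ⟨fun _ => 0, tendsto_const_nhds, fun R x => by simp⟩

lemma UC.tendsto {G : ℕ → ℤ → ℂ} {g : ℤ → ℂ} (h : UC G g) (x : ℤ) :
    Tendsto (fun R => G R x) atTop (𝓝 (g x)) := by
  obtain ⟨e, he, hGe⟩ := h
  rw [tendsto_iff_norm_sub_tendsto_zero]
  exact squeeze_zero (fun _ => norm_nonneg _) (fun R => hGe R x) he

end Pool.Agent.T6.H51.RM
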