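import Mathlib
import Pool.Agent.T6.H51.RM.E

/-!
Truncation of symmetric unimodal probability measures and the pointwise bound for the operators
`μ ^ n (1 - μ) ^ m` (helper51; the truncation is that of the starting file
`Results/MP_e7950b_an/SymmetricUnimodalRitt`).
-/

set_option autoImplicit false

namespace Pool.Agent.T6.H51.RM

open Finset Filter Topology Pool.Agent.R434.Ritt

section approx

variable {μ : ℤ → ℝ} (h0 : ∀ x, 0 ≤ μ x) (h1 : HasSum μ 1) (hs : ∀ x, μ (-x) = μ x)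
  (ha : ∀ n : ℕ, μ (n + 1) ≤ μ n)

/-- the truncation with the missing mass put at zero -/
noncomputable def tr (μ : ℤ → ℝ) (K : ℕ) : L :=
  ∑ i ∈ Finset.Icc (-(K : ℤ)) K, μ i • T i + (1 - ∑ i ∈ Finset.Icc (-(K : ℤ)) K, μ i) • T 0

lemma tr_coeff (K : ℕ) (x : ℤ) : (tr μ K).coeff x = (if |x| ≤ (K : ℤ) then μ x else 0) +
    (if x = 0 then 1 - ∑ i ∈ Finset.Icc (-(K : ℤ)) K, μ i else 0) := by
  unfold tr
  rw [AddMonoidAlgebra.coeff_add, Finsupp.add_apply, AddMonoidAlgebra.coeff_sum,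
    Finsupp.finsetSum_apply]
  simp only [AddMonoidAlgebra.coeff_smul_apply, T_coeff, smul_eq_mul, mul_ite, mul_one, mul_zero]
  congr 1
  · rw [Finset.sum_ite_eq']
    simp only [Finset.mem_Icc, abs_le]
  · simp only [eq_comm]

include h0 h1 in
lemma miss_nonneg (K : ℕ) : 0 ≤ 1 - ∑ i ∈ Finset.Icc (-(K : ℤ)) K, μ i := by
  have := sum_le_hasSum (Finset.Icc (-(K : ℤ)) K) (fun i _ => h0 i) h1
  linarith

include hs ha in
lemma mono {x y : ℤ} (h : |x| ≤ |y|) : μ y ≤ μ x := by
  have habs : ∀ z : ℤ, μ z = μ |z| := by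
    intro z
    rcases abs_choice z with h | h
    · rw [h]
    · rw [h, hs]
  have hm : ∀ a b : ℕ, μ ((a + b : ℕ) : ℤ) ≤ μ (a : ℤ) := by
    intro a b
    induction b with
    | zero => simp
    | succ b ih =>
      refine le_trans ?_ ih
      have := ha (a + b)
      push_cast at this ⊢
      rwa [← add_assoc]
  rw [habs x, habs y]
  obtain ⟨a, hx⟩ := Int.eq_ofNat_of_zero_le (abs_nonneg x)
  obtain ⟨c, hy⟩ := Int.eq_ofNat_of_zero_le (abs_nonneg y)
  rw [hx, hy] at h ⊢
  have hac : a ≤ c := by exact_mod_cast h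
  obtain ⟨b, rfl⟩ := Nat.exists_eq_add_of_le hac
  exact hm a b

include h0 h1 hs ha in
lemma tr_Uni (K : ℕ) : Uni (tr μ K) := by
  intro x y hxy
  rw [tr_coeff, tr_coeff]
  have hm := mono hs ha hxy
  have hmiss := miss_nonneg h0 h1 K
  refine add_le_add ?_ ?_
  · split_ifs with h2 h3 h3
    · exact hm
    · omega
    · exact h0 x
    · exact le_rfl
  · split_ifs with h2 h3 h3
    · exact le_rfl
    · exfalso
      subst h2
      rw [abs_zero] at hxy
      exact h3 (abs_nonpos_iff.1 hxy)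
    · exact hmiss
    · exact le_rfl

lemma tr_mass (K : ℕ) : ∑' x : ℤ, (tr μ K).coeff x = 1 := by
  have h2 : ∑' x : ℤ, (tr μ K).coeff x =
      ∑ x ∈ Finset.Icc (-(K : ℤ)) K, (tr μ K).coeff x := by
    refine tsum_eq_sum fun x hx => ?_
    rw [tr_coeff, if_neg, if_neg, add_zero]
    · rintro rfl
      exact hx (Finset.mem_Icc.2 ⟨by omega, by omega⟩)
    · intro h
      exact hx (Finset.mem_Icc.2 (abs_le.1 h))
  rw [h2]
  simp only [tr_coeff]
  rw [Finset.sum_add_distrib, Finset.sum_ite_eq']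
  rw [if_pos (Finset.mem_Icc.2 ⟨by omega, by omega⟩)]
  have h3 : ∑ x ∈ Finset.Icc (-(K : ℤ)) K, (if |x| ≤ (K : ℤ) then μ x else 0) =
      ∑ x ∈ Finset.Icc (-(K : ℤ)) K, μ x := by
    refine Finset.sum_congr rfl fun x hx => ?_
    rw [if_pos (abs_le.2 (Finset.mem_Icc.1 hx))]
  rw [h3]
  ring

include h0 in
lemma tr_le (K : ℕ) (x : ℤ) : (tr μ K).coeff x ≤ μ x + (if x = 0 then 1 else 0) := by
  rw [tr_coeff]
  refine add_le_add ?_ ?_
  · split_ifs
    · exact le_rfl
    · exact h0 x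
  · split_ifs
    · have := Finset.sum_nonneg fun i (_ : i ∈ Finset.Icc (-(K : ℤ)) K) => h0 i
      linarith
    · exact le_rfl

lemma tendsto_Icc : Tendsto (fun K : ℕ => Finset.Icc (-(K : ℤ)) K) atTop atTop := by
  refine tendsto_atTop_finset_of_monotone (fun a b hab x hx => ?_) fun x => ⟨x.natAbs, ?_⟩
  · rw [Finset.mem_Icc] at hx ⊢
    have : (a : ℤ) ≤ b := by exact_mod_cast hab
    constructor <;> omega
  · rw [Finset.mem_Icc]
    constructor <;> omega

include h1 in
lemma tr_tendsto (x : ℤ) : Tendsto (fun K : ℕ => (tr μ K).coeff x) atTop (𝓝 (μ x)) := by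
  simp only [tr_coeff]
  have h2 : Tendsto (fun K : ℕ => if |x| ≤ (K : ℤ) then μ x else 0) atTop (𝓝 (μ x)) := by
    refine tendsto_const_nhds.congr' ?_
    filter_upwards [eventually_ge_atTop x.natAbs] with K hK
    rw [if_pos]
    rw [← Int.natCast_natAbs]
    exact_mod_cast hK
  have h3 : Tendsto (fun K : ℕ => 1 - ∑ i ∈ Finset.Icc (-(K : ℤ)) K, μ i) atTop (𝓝 (1 - 1)) :=
    tendsto_const_nhds.sub (h1.comp tendsto_Icc)
  have h4 : Tendsto (fun K : ℕ => if x = 0 then 1 - ∑ i ∈ Finset.Icc (-(K : ℤ)) K, μ i else 0)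
      atTop (𝓝 0) := by
    split_ifs
    · rw [sub_self] at h3
      exact h3
    · exact tendsto_const_nhds
  simpa using h2.add h4


include h0 in
lemma mu_summ' (h1 : HasSum μ 1) : Summable fun k => |μ k| :=
  h1.summable.congr fun k => (abs_of_nonneg (h0 k)).symm

lemma L_summ (p : L) : Summable fun k => |p.coeff k| := summ_abs p

include h0 h1 in
/-- the truncations converge in `ℓ¹` -/
lemma tr_KC : KC (fun K => fun k => (tr μ K).coeff k) μ := by
  refine ⟨fun R => L_summ _, mu_summ' h0 h1, ?_⟩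
  have hmiss : Tendsto (fun K : ℕ => 1 - ∑ i ∈ Finset.Icc (-(K : ℤ)) K, μ i) atTop (𝓝 (1 - 1)) :=
    tendsto_const_nhds.sub (h1.comp tendsto_Icc)
  rw [sub_self] at hmiss
  have hle : ∀ K : ℕ, ∑' k, |(tr μ K).coeff k - μ k| ≤
      2 * (1 - ∑ i ∈ Finset.Icc (-(K : ℤ)) K, μ i) := by
    intro K
    set M := 1 - ∑ i ∈ Finset.Icc (-(K : ℤ)) K, μ i with hM
    have hM0 : 0 ≤ M := miss_nonneg h0 h1 K
    have hin : HasSum (fun x : ℤ => if |x| ≤ (K : ℤ) then μ x else 0)
        (∑ i ∈ Finset.Icc (-(K : ℤ)) K, μ i) := by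
      have h2 : ∑ i ∈ Finset.Icc (-(K : ℤ)) K, μ i =
          ∑ i ∈ Finset.Icc (-(K : ℤ)) K, (if |i| ≤ (K : ℤ) then μ i else 0) :=
        Finset.sum_congr rfl fun x hx => by rw [if_pos (abs_le.2 (Finset.mem_Icc.1 hx))]
      rw [h2]
      refine hasSum_sum_of_ne_finset_zero fun x hx => ?_
      rw [if_neg]
      intro h
      exact hx (Finset.mem_Icc.2 (abs_le.1 h))
    have hout : HasSum (fun x : ℤ => μ x - if |x| ≤ (K : ℤ) then μ x else 0) M := h1.sub hin
    have hz : HasSum (fun x : ℤ => if x = 0 then M else 0) M := by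
      have := hasSum_ite_eq (0 : ℤ) M
      exact this
    have hsum := hout.add hz
    have hb : ∀ x : ℤ, |(tr μ K).coeff x - μ x| ≤
        (μ x - if |x| ≤ (K : ℤ) then μ x else 0) + (if x = 0 then M else 0) := by
      intro x
      rw [tr_coeff]
      have e : ((if |x| ≤ (K : ℤ) then μ x else 0) +
          (if x = 0 then 1 - ∑ i ∈ Finset.Icc (-(K : ℤ)) K, μ i else 0)) - μ x =
          -(μ x - if |x| ≤ (K : ℤ) then μ x else 0) + (if x = 0 then M else 0) := by
        rw [hM]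
        ring
      rw [e]
      have h2 : 0 ≤ μ x - if |x| ≤ (K : ℤ) then μ x else 0 := by
        split_ifs
        · simp
        · simpa using h0 x
      have h3 : 0 ≤ (if x = 0 then M else 0) := by
        split_ifs
        · exact hM0
        · exact le_rfl
      refine (abs_add_le _ _).trans ?_
      rw [abs_neg, abs_of_nonneg h2, abs_of_nonneg h3]
    have h4 := Summable.tsum_le_tsum hb (sub_summ (L_summ (tr μ K)) (mu_summ' h0 h1)) hsum.summable
    rw [hsum.tsum_eq] at h4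
    linarith
  refine squeeze_zero (fun K => tsum_nonneg fun _ => abs_nonneg _) hle ?_
  simpa using hmiss.const_mul 2

end approx

lemma cvr_coeff (p q : L) : (fun k => (p * q).coeff k) = cvr (fun k => p.coeff k) fun k => q.coeff k := by
  funext k
  unfold cvr
  rw [coeff_mul, tsum_eq_sum]
  intro y hy
  have : p.coeff y = 0 := by simpa using hy
  change p.coeff y * q.coeff (k - y) = 0
  rw [this, zero_mul]

lemma conv_coeff_mul (p q : L) {g : ℤ → ℂ} (hg : Bd g) :
    conv (fun k => (p * q).coeff k) g = conv (fun k => p.coeff k) (conv (fun k => q.coeff k) g) := by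
  rw [cvr_coeff]
  exact conv_assoc (L_summ p) (L_summ q) hg

lemma conv_coeff_one (g : ℤ → ℂ) : conv (fun k => (1 : L).coeff k) g = g := by
  have : (fun k => (1 : L).coeff k) = del := by
    funext k
    rw [← T_zero, T_coeff, del]
    simp only [eq_comm]
  rw [this, conv_del]

lemma conv_coeff_pow (p : L) (n : ℕ) {g : ℤ → ℂ} (hg : Bd g) :
    conv (fun k => (p ^ n).coeff k) g = (conv (fun k => p.coeff k))^[n] g := by
  induction n with
  | zero =>
    rw [pow_zero]
    exact conv_coeff_one g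
  | succ n ih =>
    rw [pow_succ', conv_coeff_mul p _ hg, ih, Function.iterate_succ_apply']

lemma KC_one_sub {N : ℕ → ℤ → ℝ} {ν : ℤ → ℝ} (h : KC N ν) :
    KC (fun R k => del k - N R k) fun k => del k - ν k := by
  refine ⟨fun R => sub_summ del_summ (h.1 R), sub_summ del_summ h.2.1, ?_⟩
  have e : (fun R => ∑' k, |del k - N R k - (del k - ν k)|) = fun R => ∑' k, |N R k - ν k| := by
    funext R
    refine tsum_congr fun k => ?_
    rw [← abs_neg]
    congr 1
    ring
  rw [e]
  exact h.2.2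

/-- **The pointwise bound.** -/
theorem pointwise {μ : ℤ → ℝ} (h0 : ∀ x, 0 ≤ μ x) (h1 : HasSum μ 1) (hs : ∀ x, μ (-x) = μ x)
    (ha : ∀ n : ℕ, μ (n + 1) ≤ μ n) (f : ℤ → ℂ) (hf : Bd f) (m n : ℕ) (hn : 1 ≤ n) (x : ℤ) (A : ℝ)
    (hA : Av (fun y => ‖f y‖) x A) :
    (n : ℝ) ^ m * ‖conv (convPow μ n) (conv (convPow (fun k => del k - μ k) m) f) x‖ ≤
      (480000 * m) ^ m * A := by
  have hn0 : (0 : ℝ) < (n : ℝ) ^ m := by
    have : (0 : ℝ) < n := by exact_mod_cast hn
    positivity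
  have hKC := tr_KC h0 h1
  have hμs := mu_summ' h0 h1
  have hK' := KC_one_sub hKC
  rw [conv_convPow hK'.2.1 m hf, conv_convPow hμs n (iter_bd hK'.2.1 m hf)]
  have hUC := ((UC.const f).iter hK' hf m).iter hKC (iter_bd hK'.2.1 m hf) n
  have hlim := (hUC.tendsto x).norm
  have hb : ∀ R, ‖(conv (fun k => (tr μ R).coeff k))^[n]
      ((conv fun k => del k - (tr μ R).coeff k)^[m] f) x‖ ≤
      (480000 * m) ^ m / (n : ℝ) ^ m * A := by
    intro R
    have hU := tr_Uni h0 h1 hs ha R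
    have hm := tr_mass (μ := μ) R
    have h2 := m_bound hU hm m n hn
    have h3 := dom f x A hA h2
    have e1 : (fun k => (1 - tr μ R).coeff k) = fun k => del k - (tr μ R).coeff k := by
      funext k
      rw [AddMonoidAlgebra.coeff_sub, Finsupp.sub_apply, ← T_zero, T_coeff, del]
      simp only [eq_comm]
    have e2 : conv (fun k => (tr μ R ^ n * (1 - tr μ R) ^ m).coeff k) f =
        (conv (fun k => (tr μ R).coeff k))^[n]
          ((conv fun k => del k - (tr μ R).coeff k)^[m] f) := by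
      rw [conv_coeff_mul _ _ hf, conv_coeff_pow _ m hf, e1, conv_coeff_pow]
      exact iter_bd (sub_summ del_summ (L_summ _)) m hf
    rw [← e2]
    exact h3
  have h4 := le_of_tendsto' hlim hb
  have h5 := mul_le_mul_of_nonneg_left h4 hn0.le
  refine h5.trans (le_of_eq ?_)
  field_simp

end Pool.Agent.T6.H51.RM
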